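import Mathlib

/-!
# A marginally unstable continuous-time switching system with sublinear growth

Family `A_s = [[0, sqrt s], [0, -s]]`, `0 ≤ s ≤ 1`, in dimension two.
-/

namespace Pool.Agent.Results.MP_c2c39f_an.SublinearGrowth

open MeasureTheory Filter Topology Set

/-- A switching law with values in `𝒜`: a map `[0, ∞) → 𝒜` with (Lebesgue) measurable matrix
entries. -/
def IsSwitchingLaw {d : ℕ} (𝒜 : Set (Matrix (Fin d) (Fin d) ℝ))
    (A : ℝ → Matrix (Fin d) (Fin d) ℝ) : Prop :=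
  (∀ i j : Fin d, AEMeasurable (fun t => A t i j) (volume.restrict (Ici (0 : ℝ)))) ∧
    ∀ t : ℝ, 0 ≤ t → A t ∈ 𝒜

/-- `x` is a trajectory of the switching system `𝒜` (with initial value `x 0`): for some switching
law `A` it is absolutely continuous on every `[0, T]` and `x'(t) = A(t) x(t)` for almost every
`t > 0`. -/
def IsTrajectory {d : ℕ} (𝒜 : Set (Matrix (Fin d) (Fin d) ℝ))
    (x : ℝ → EuclideanSpace ℝ (Fin d)) : Prop :=
  ∃ A : ℝ → Matrix (Fin d) (Fin d) ℝ, IsSwitchingLaw 𝒜 A ∧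
    (∀ T : ℝ, 0 ≤ T → AbsolutelyContinuousOnInterval x 0 T) ∧
    ∀ᵐ t : ℝ, 0 < t → HasDerivAt x (Matrix.toEuclideanLin (A t) (x t)) t

/-- The Lyapunov exponent: the supremum over all trajectories of
`limsup (1/t) log ‖x t‖` (with values in the extended reals, `log 0 = -∞`). -/
noncomputable def lyapunovExponent {d : ℕ} (𝒜 : Set (Matrix (Fin d) (Fin d) ℝ)) : EReal :=
  ⨆ (x : ℝ → EuclideanSpace ℝ (Fin d)) (_ : IsTrajectory 𝒜 x),
    limsup (fun t : ℝ => ((t⁻¹ : ℝ) : EReal) * ENNReal.log ‖x t‖ₑ) atTop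

/-- The system is marginally unstable: its Lyapunov exponent is `0` and some trajectory is
unbounded (on `[0, ∞)`). -/
def MarginallyUnstable {d : ℕ} (𝒜 : Set (Matrix (Fin d) (Fin d) ℝ)) : Prop :=
  lyapunovExponent 𝒜 = 0 ∧
    ∃ x : ℝ → EuclideanSpace ℝ (Fin d), IsTrajectory 𝒜 x ∧
      ∀ C : ℝ, ∃ t : ℝ, 0 ≤ t ∧ C < ‖x t‖

/-- `M(t)`: the supremum of `‖x t‖` over all trajectories with `‖x 0‖ ≤ 1`. -/
noncomputable def maxGrowth {d : ℕ} (𝒜 : Set (Matrix (Fin d) (Fin d) ℝ)) (t : ℝ) : ENNReal :=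
  ⨆ (x : ℝ → EuclideanSpace ℝ (Fin d)) (_ : IsTrajectory 𝒜 x) (_ : ‖x 0‖ ≤ 1), ‖x t‖ₑ

/-- Sublinear growth: `M(t) / t → 0`. -/
def SublinearlyGrowing {d : ℕ} (𝒜 : Set (Matrix (Fin d) (Fin d) ℝ)) : Prop :=
  Tendsto (fun t : ℝ => maxGrowth 𝒜 t / ENNReal.ofReal t) atTop (𝓝 0)

/-! ## The example -/

/-- The matrices `A_s`. -/
noncomputable def As (s : ℝ) : Matrix (Fin 2) (Fin 2) ℝ := !![0, Real.sqrt s; 0, -s]

/-- The family. -/
noncomputable def fam : Set (Matrix (Fin 2) (Fin 2) ℝ) := As '' Icc (0 : ℝ) 1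

theorem continuous_As : Continuous As := by
  refine continuous_matrix ?_
  intro i j
  fin_cases i <;> fin_cases j <;> simp [As] <;> fun_prop

theorem isCompact_fam : IsCompact fam := isCompact_Icc.image continuous_As

/-- components of absolutely continuous curves -/
theorem ac_comp {x : ℝ → EuclideanSpace ℝ (Fin 2)} {a b : ℝ}
    (h : AbsolutelyContinuousOnInterval x a b) (i : Fin 2) :
    AbsolutelyContinuousOnInterval (fun t => x t i) a b := by
  rw [absolutelyContinuousOnInterval_iff] at h ⊢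
  intro ε hε
  obtain ⟨δ, hδ, h'⟩ := h ε hε
  refine ⟨δ, hδ, fun E hE hE2 => lt_of_le_of_lt ?_ (h' E hE hE2)⟩
  refine Finset.sum_le_sum fun k _ => ?_
  rw [Real.dist_eq, dist_eq_norm]
  have := PiLp.norm_apply_le (x (E.2 k).1 - x (E.2 k).2) i
  simpa using this

/-- Key estimate. -/
theorem key {x : ℝ → EuclideanSpace ℝ (Fin 2)} (hx : IsTrajectory fam x) {t : ℝ} (ht : 0 ≤ t)
    {ε : ℝ} (hε : 0 < ε) :
    |x t 1| ≤ |x 0 1| ∧ |x t 0| ≤ |x 0 0| + (ε * t / 2 + (x 0 1) ^ 2 / (4 * ε)) := by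
  obtain ⟨A, hA, hac, hode⟩ := hx
  set u : ℝ → ℝ := fun t => x t 0 with hu
  set v : ℝ → ℝ := fun t => x t 1 with hv
  have hacu : AbsolutelyContinuousOnInterval u 0 t := ac_comp (hac t ht) 0
  have hacv : AbsolutelyContinuousOnInterval v 0 t := ac_comp (hac t ht) 1
  have hs : ∀ r : ℝ, 0 ≤ r → ∃ s : ℝ, 0 ≤ s ∧ s ≤ 1 ∧ A r = As s := by
    intro r hr
    obtain ⟨s, ⟨hs0, hs1⟩, hs2⟩ := hA.2 r hr
    exact ⟨s, hs0, hs1, hs2.symm⟩
  -- derivatives
  have hder : ∀ᵐ r : ℝ, 0 < r → ∃ s : ℝ, 0 ≤ s ∧ s ≤ 1 ∧ deriv u r = Real.sqrt s * v r ∧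
      deriv v r = -s * v r := by
    filter_upwards [hode] with r hr hr0
    obtain ⟨s, hs0, hs1, hs2⟩ := hs r hr0.le
    have h1 := hr hr0
    refine ⟨s, hs0, hs1, ?_, ?_⟩
    · have h2 : HasDerivAt u (Matrix.toEuclideanLin (A r) (x r) 0) r := by
        have := (EuclideanSpace.proj (𝕜 := ℝ) (0 : Fin 2) : EuclideanSpace ℝ (Fin 2) →L[ℝ] ℝ).hasFDerivAt.comp_hasDerivAt r h1
        simpa [hu, Function.comp_def] using this
      rw [h2.deriv, hs2]
      simp [Matrix.toEuclideanLin, As, Matrix.mulVec, dotProduct, Fin.sum_univ_two, hv]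
    · have h2 : HasDerivAt v (Matrix.toEuclideanLin (A r) (x r) 1) r := by
        have := (EuclideanSpace.proj (𝕜 := ℝ) (1 : Fin 2) : EuclideanSpace ℝ (Fin 2) →L[ℝ] ℝ).hasFDerivAt.comp_hasDerivAt r h1
        simpa [hv, Function.comp_def] using this
      rw [h2.deriv, hs2]
      simp [Matrix.toEuclideanLin, As, Matrix.mulVec, dotProduct, Fin.sum_univ_two, hv]
  have hvv := hacv.integral_deriv_mul_eq_sub hacv
  have hint : IntervalIntegrable (fun r => deriv v r * v r + v r * deriv v r) volume 0 t :=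
    (hacv.intervalIntegrable_deriv.mul_continuousOn hacv.continuousOn).add
      (hacv.intervalIntegrable_deriv.continuousOn_mul hacv.continuousOn)
  have hne : (∫ r in (0 : ℝ)..t, deriv v r * v r + v r * deriv v r) ≤ 0 := by
    rw [intervalIntegral.integral_of_le ht]
    apply integral_nonpos_of_ae
    rw [Filter.EventuallyLE, ae_restrict_iff' measurableSet_Ioc]
    filter_upwards [hder] with r hr hr0
    obtain ⟨s, hs0, hs1, h1, h2⟩ := hr hr0.1
    rw [h2]
    simp only [Pi.zero_apply]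
    nlinarith [mul_nonneg hs0 (mul_self_nonneg (v r))]
  have hsq : v t * v t ≤ v 0 * v 0 := by linarith
  constructor
  · exact sq_le_sq.mp (by nlinarith [hsq])
  · have huu := hacu.integral_deriv_eq_sub
    have hb : |∫ r in (0 : ℝ)..t, deriv u r| ≤
        ∫ r in (0 : ℝ)..t, (ε / 2 + (-(1 / (4 * ε))) * (deriv v r * v r + v r * deriv v r)) := by
      rw [← Real.norm_eq_abs]
      apply intervalIntegral.norm_integral_le_of_norm_le ht
      · filter_upwards [hder] with r hr hr0
        obtain ⟨s, hs0, hs1, h1, h2⟩ := hr hr0.1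
        rw [h1, h2, Real.norm_eq_abs, abs_mul, abs_of_nonneg (Real.sqrt_nonneg s)]
        have h3 : Real.sqrt s * Real.sqrt s = s := Real.mul_self_sqrt hs0
        have h4 : |v r| * |v r| = v r * v r := abs_mul_abs_self (v r)
        have h5 : -(1 / (4 * ε)) * (-s * v r * v r + v r * (-s * v r)) =
            (Real.sqrt s * |v r|) * (Real.sqrt s * |v r|) / (2 * ε) := by
          have : (Real.sqrt s * |v r|) * (Real.sqrt s * |v r|) =
            (Real.sqrt s * Real.sqrt s) * (|v r| * |v r|) := by ring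
          rw [this, h3, h4]
          field_simp
          ring
        rw [h5]
        set y := Real.sqrt s * |v r|
        have h6 : ε / 2 + y * y / (2 * ε) - y = (ε - y) ^ 2 / (2 * ε) := by
          field_simp
          ring
        have h7 : 0 ≤ (ε - y) ^ 2 / (2 * ε) := by positivity
        linarith
      · exact (intervalIntegrable_const).add (hint.const_mul _)
    rw [huu, intervalIntegral.integral_add intervalIntegrable_const (hint.const_mul _),
      intervalIntegral.integral_const_mul, hvv, intervalIntegral.integral_const] at hb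
    have h8 : |u t| ≤ |u 0| + |u t - u 0| := by
      have := abs_add_le (u 0) (u t - u 0)
      simpa using this
    have h9 : (t - 0) • (ε / 2) + -(1 / (4 * ε)) * (v t * v t - v 0 * v 0) ≤
        ε * t / 2 + (v 0) ^ 2 / (4 * ε) := by
      have h10 : (0 : ℝ) ≤ 1 / (4 * ε) := by positivity
      have h11 : (v 0) ^ 2 / (4 * ε) = (1 / (4 * ε)) * (v 0 * v 0) := by ring
      rw [h11, smul_eq_mul]
      nlinarith [mul_nonneg h10 (mul_self_nonneg (v t))]
    linarith

theorem norm_le_comp (y : EuclideanSpace ℝ (Fin 2)) : ‖y‖ ≤ |y 0| + |y 1| := by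
  rw [EuclideanSpace.norm_eq, Fin.sum_univ_two]
  apply Real.sqrt_le_iff.mpr
  constructor
  · positivity
  · rw [Real.norm_eq_abs, Real.norm_eq_abs]
    nlinarith [mul_nonneg (abs_nonneg (y 0)) (abs_nonneg (y 1))]

theorem norm_bound {x : ℝ → EuclideanSpace ℝ (Fin 2)} (hx : IsTrajectory fam x) {t : ℝ}
    (ht : 1 ≤ t) :
    ‖x t‖ ≤ |x 0 0| + |x 0 1| + (1 / 2 + (x 0 1) ^ 2 / 4) * Real.sqrt t := by
  have ht0 : 0 < t := by linarith
  have hst : 0 < Real.sqrt t := Real.sqrt_pos.mpr ht0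
  have hε : 0 < 1 / Real.sqrt t := by positivity
  obtain ⟨h1, h2⟩ := key hx ht0.le hε
  have h3 := norm_le_comp (x t)
  have h4 : Real.sqrt t * Real.sqrt t = t := Real.mul_self_sqrt ht0.le
  have h5 : 1 / Real.sqrt t * t / 2 = Real.sqrt t / 2 := by
    nth_rewrite 2 [← h4]
    field_simp
  have h6 : (x 0 1) ^ 2 / (4 * (1 / Real.sqrt t)) = (x 0 1) ^ 2 / 4 * Real.sqrt t := by
    field_simp
  rw [h5, h6] at h2
  nlinarith

/-! ## Sublinear growth -/

theorem maxGrowth_le {t : ℝ} (ht : 1 ≤ t) :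
    maxGrowth fam t ≤ ENNReal.ofReal (2 + Real.sqrt t) := by
  refine iSup_le fun x => iSup_le fun hx => iSup_le fun h0 => ?_
  have h1 := norm_bound hx ht
  have h2 : |x 0 0| ≤ 1 := le_trans (by simpa using PiLp.norm_apply_le (x 0) 0) h0
  have h3 : |x 0 1| ≤ 1 := le_trans (by simpa using PiLp.norm_apply_le (x 0) 1) h0
  have h4 : (x 0 1) ^ 2 ≤ 1 := by
    rw [← sq_abs]
    nlinarith [abs_nonneg (x 0 1)]
  have h5 : ‖x t‖ ≤ 2 + Real.sqrt t := by
    nlinarith [Real.sqrt_nonneg t]
  rw [← ofReal_norm]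
  exact ENNReal.ofReal_le_ofReal h5

theorem tendsto_aux : Tendsto (fun t : ℝ => (2 + Real.sqrt t) / t) atTop (𝓝 0) := by
  have h1 : Tendsto (fun t : ℝ => 2 / t + (Real.sqrt t)⁻¹) atTop (𝓝 (0 + 0)) :=
    (tendsto_const_nhds.div_atTop tendsto_id).add (tendsto_inv_atTop_zero.comp Real.tendsto_sqrt_atTop)
  rw [add_zero] at h1
  refine h1.congr' ?_
  filter_upwards [eventually_gt_atTop 0] with t ht
  have hst : 0 < Real.sqrt t := Real.sqrt_pos.mpr ht
  have h4 : Real.sqrt t * Real.sqrt t = t := Real.mul_self_sqrt ht.le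
  rw [add_div]
  congr 1
  rw [eq_div_iff ht.ne']
  nth_rewrite 2 [← h4]
  field_simp

theorem sublinear : SublinearlyGrowing fam := by
  unfold SublinearlyGrowing
  have h1 : Tendsto (fun t : ℝ => ENNReal.ofReal ((2 + Real.sqrt t) / t)) atTop (𝓝 0) := by
    have := ENNReal.tendsto_ofReal tendsto_aux
    simpa using this
  refine tendsto_of_tendsto_of_tendsto_of_le_of_le' tendsto_const_nhds h1
    (Eventually.of_forall fun _ => bot_le) ?_
  filter_upwards [eventually_ge_atTop 1] with t ht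
  have ht0 : 0 < t := by linarith
  rw [ENNReal.ofReal_div_of_pos ht0]
  exact ENNReal.div_le_div_right (maxGrowth_le ht) _

/-! ## The Lyapunov exponent -/

theorem log_tendsto : Tendsto (fun t : ℝ => ((t⁻¹ * Real.log t : ℝ) : EReal)) atTop (𝓝 0) := by
  have h1 : Tendsto (fun t : ℝ => t⁻¹ * Real.log t) atTop (𝓝 0) := by
    have := Real.isLittleO_log_id_atTop.tendsto_div_nhds_zero
    refine this.congr fun t => ?_
    simp [div_eq_inv_mul]
  exact (EReal.tendsto_coe.mpr h1)

theorem traj_le {x : ℝ → EuclideanSpace ℝ (Fin 2)} (hx : IsTrajectory fam x) :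
    limsup (fun t : ℝ => ((t⁻¹ : ℝ) : EReal) * ENNReal.log ‖x t‖ₑ) atTop ≤ 0 := by
  rw [← log_tendsto.limsup_eq]
  refine limsup_le_limsup ?_
  have h1 : ∀ᶠ t : ℝ in atTop, ‖x t‖ ≤ t := by
    set a := |x 0 0| + |x 0 1|
    set b := (1 / 2 + (x 0 1) ^ 2 / 4)
    have h2 : Tendsto (fun t : ℝ => a / t + b * (Real.sqrt t)⁻¹) atTop (𝓝 (0 + b * 0)) :=
      (tendsto_const_nhds.div_atTop tendsto_id).add
        ((tendsto_inv_atTop_zero.comp Real.tendsto_sqrt_atTop).const_mul b)
    have h3 := h2.eventually_le_const (show 0 + b * 0 < (1 : ℝ) by simp)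
    filter_upwards [h3, eventually_ge_atTop 1] with t ht3 ht1
    have ht : 0 < t := by linarith
    have hst : 0 < Real.sqrt t := Real.sqrt_pos.mpr ht
    have h4 : Real.sqrt t * Real.sqrt t = t := Real.mul_self_sqrt ht.le
    refine (norm_bound hx ht1).trans ?_
    have h5 : (a / t + b * (Real.sqrt t)⁻¹) * t = a + b * Real.sqrt t := by
      rw [add_mul, div_mul_cancel₀ _ ht.ne']
      congr 1
      nth_rewrite 2 [← h4]
      field_simp
    have h6 : (a / t + b * (Real.sqrt t)⁻¹) * t ≤ 1 * t := mul_le_mul_of_nonneg_right ht3 ht.le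
    rw [h5, one_mul] at h6
    exact h6
  filter_upwards [h1, eventually_gt_atTop 0] with t ht ht0
  rw [← ofReal_norm, EReal.coe_mul]
  refine mul_le_mul_of_nonneg_left ?_ (by exact_mod_cast (inv_pos.mpr ht0).le)
  rw [← ENNReal.log_ofReal_of_pos ht0]
  exact ENNReal.log_le_log (ENNReal.ofReal_le_ofReal ht)

/-- The constant trajectory. -/
theorem const_traj : IsTrajectory fam (fun _ => EuclideanSpace.single 0 1) := by
  refine ⟨fun _ => As 0, ⟨fun i j => aemeasurable_const, fun t _ => ⟨0, by simp, rfl⟩⟩, ?_, ?_⟩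
  · intro T hT
    exact (contDiff_const.contDiffOn).absolutelyContinuousOnInterval
  · refine Eventually.of_forall fun t ht => ?_
    have : Matrix.toEuclideanLin (As 0) (EuclideanSpace.single (0 : Fin 2) (1 : ℝ)) = 0 := by
      ext i
      fin_cases i <;> simp [Matrix.toEuclideanLin, As, Matrix.mulVec, dotProduct, Fin.sum_univ_two]
    rw [this]
    exact hasDerivAt_const _ _

theorem lyapunov_eq : lyapunovExponent fam = 0 := by
  apply le_antisymm
  · exact iSup_le fun x => iSup_le fun hx => traj_le hx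
  · refine le_iSup_of_le (fun _ => EuclideanSpace.single 0 1) (le_iSup_of_le const_traj ?_)
    have : (fun t : ℝ => ((t⁻¹ : ℝ) : EReal) *
        ENNReal.log ‖(EuclideanSpace.single (0 : Fin 2) (1 : ℝ))‖ₑ) = fun _ => 0 := by
      funext t
      have h1 : ‖(EuclideanSpace.single (0 : Fin 2) (1 : ℝ))‖ₑ = 1 := by
        rw [← ofReal_norm]
        simp
      rw [h1, ENNReal.log_one, mul_zero]
    rw [this, limsup_const]

/-! ## The unbounded trajectory -/

/-- The switching parameter. -/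
noncomputable def sp (t : ℝ) : ℝ := 1 / ((1 + t) * (3 + t))

/-- The second coordinate. -/
noncomputable def q (t : ℝ) : ℝ := Real.sqrt ((3 + t) / (1 + t))

/-- The trajectory. -/
noncomputable def traj (t : ℝ) : EuclideanSpace ℝ (Fin 2) := !₂[Real.log (1 + t), q t]

theorem q_pos {t : ℝ} (ht : 0 ≤ t) : 0 < q t := by
  unfold q
  apply Real.sqrt_pos.mpr
  positivity

theorem q_sq {t : ℝ} (ht : 0 ≤ t) : q t * q t = (3 + t) / (1 + t) := by
  unfold q
  apply Real.mul_self_sqrt
  positivity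

theorem sqrt_sp {t : ℝ} (ht : 0 ≤ t) : Real.sqrt (sp t) * q t = 1 / (1 + t) := by
  have hq := q_pos ht
  have h1 : sp t = (1 / ((1 + t) * q t)) ^ 2 := by
    unfold sp
    have h2 : (1 / ((1 + t) * q t)) ^ 2 = 1 / ((1 + t) ^ 2 * (q t * q t)) := by
      field_simp
    rw [h2, q_sq ht]
    have : (1 + t) ≠ 0 := by positivity
    field_simp
  rw [h1, Real.sqrt_sq (by positivity)]
  field_simp

theorem hasDeriv_q {t : ℝ} (ht : 0 ≤ t) : HasDerivAt q (-(sp t) * q t) t := by
  have hq := q_pos ht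
  have h0 : (1 + t) ≠ 0 := by positivity
  have h3 : (3 + t) ≠ 0 := by positivity
  have h1 : HasDerivAt (fun t : ℝ => (3 + t) / (1 + t)) ((1 * (1 + t) - (3 + t) * 1) / (1 + t) ^ 2) t :=
    ((hasDerivAt_id t).const_add 3).div ((hasDerivAt_id t).const_add 1) h0
  have h2 := h1.sqrt (by positivity)
  have h4 : -(sp t) * q t = (1 * (1 + t) - (3 + t) * 1) / (1 + t) ^ 2 / (2 * √((3 + t) / (1 + t))) := by
    change _ = (1 * (1 + t) - (3 + t) * 1) / (1 + t) ^ 2 / (2 * q t)
    rw [eq_div_iff (by positivity)]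
    have h5 : -(sp t) * q t * (2 * q t) = -(sp t) * 2 * (q t * q t) := by ring
    rw [h5, q_sq ht]
    unfold sp
    field_simp
    ring
  rw [h4]
  exact h2

theorem traj_isTrajectory : IsTrajectory fam traj := by
  refine ⟨fun t => As (sp t), ⟨?_, ?_⟩, ?_, ?_⟩
  · intro i j
    have h1 : Measurable sp := by unfold sp; fun_prop
    have h2 : Measurable (fun t => As (sp t) i j) := by
      fin_cases i <;> fin_cases j <;> simp [As] <;> fun_prop
    exact h2.aemeasurable
  · intro t ht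
    refine ⟨sp t, ⟨?_, ?_⟩, rfl⟩
    · unfold sp; positivity
    · unfold sp
      rw [div_le_one (by positivity)]
      nlinarith
  · intro T hT
    apply ContDiffOn.absolutelyContinuousOnInterval
    rw [contDiffOn_euclidean]
    intro i
    rw [uIcc_of_le hT]
    fin_cases i
    · simp only [traj]
      apply ContDiffOn.log
      · fun_prop
      · intro t ht
        have := ht.1
        positivity
    · simp only [traj, q]
      apply ContDiffOn.sqrt
      · apply ContDiffOn.div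
        · fun_prop
        · fun_prop
        · intro t ht
          have := ht.1
          positivity
      · intro t ht
        have := ht.1
        positivity
  · refine Eventually.of_forall fun t ht => ?_
    have h1 : HasDerivAt (fun t : ℝ => Real.log (1 + t)) (Real.sqrt (sp t) * q t) t := by
      rw [sqrt_sp ht.le]
      exact ((hasDerivAt_id t).const_add 1).log (by simp; positivity)
    have h2 := hasDeriv_q ht.le
    have h3 : HasDerivAt (fun t : ℝ => ![Real.log (1 + t), q t])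
        ![Real.sqrt (sp t) * q t, -(sp t) * q t] t := by
      rw [hasDerivAt_pi]
      intro i
      fin_cases i
      · simpa using h1
      · simpa using h2
    have h4 := (PiLp.continuousLinearEquiv 2 ℝ (fun _ : Fin 2 => ℝ)).symm.hasFDerivAt.comp_hasDerivAt t h3
    have h5 : Matrix.toEuclideanLin (As (sp t)) (traj t) =
        !₂[Real.sqrt (sp t) * q t, -(sp t) * q t] := by
      ext i
      fin_cases i <;>
        simp [Matrix.toEuclideanLin, As, traj, mul_comm]
    rw [h5]
    exact h4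

theorem traj_unbounded (C : ℝ) : ∃ t : ℝ, 0 ≤ t ∧ C < ‖traj t‖ := by
  refine ⟨Real.exp (|C| + 1) - 1, ?_, ?_⟩
  · have := Real.add_one_le_exp (|C| + 1)
    have := abs_nonneg C
    linarith
  · have h1 : ‖traj (Real.exp (|C| + 1) - 1) 0‖ ≤ ‖traj (Real.exp (|C| + 1) - 1)‖ :=
      PiLp.norm_apply_le _ _
    refine lt_of_lt_of_le ?_ h1
    have h2 : traj (Real.exp (|C| + 1) - 1) 0 = |C| + 1 := by
      simp [traj]
    rw [h2, Real.norm_eq_abs]
    have h3 := le_abs_self C
    have h4 := le_abs_self (|C| + 1)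
    linarith

/-- There is a compact set of real `2 × 2` matrices whose continuous-time switching system is
marginally unstable and has sublinear growth. -/
theorem result : ∃ 𝒜 : Set (Matrix (Fin 2) (Fin 2) ℝ),
    IsCompact 𝒜 ∧ MarginallyUnstable 𝒜 ∧ SublinearlyGrowing 𝒜 :=
  ⟨fam, isCompact_fam, ⟨lyapunov_eq, traj, traj_isTrajectory, traj_unbounded⟩, sublinear⟩

end Pool.Agent.Results.MP_c2c39f_an.SublinearGrowth
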